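import Mathlib

/-! Lucas chains `U k i` and the finite check used for the three-prime theorem. -/

namespace Pool.Agent.MP_83ba34_nt

def U (k : ℤ) : ℕ → ℤ
  | 0 => 0
  | 1 => 1
  | (i + 2) => k * U k (i + 1) - U k i

theorem U_succ (k : ℤ) (i : ℕ) : U k (i + 2) = k * U k (i + 1) - U k i := rfl

theorem U_step {k : ℤ} (hk : 2 ≤ k) (i : ℕ) : 0 ≤ U k i ∧ U k i < U k (i + 1) := by
  induction i with
  | zero => simp [U]
  | succ i ih =>
    obtain ⟨h1, h2⟩ := ih
    refine ⟨by omega, ?_⟩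
    rw [U_succ]
    nlinarith

theorem U_strictMono {k : ℤ} (hk : 2 ≤ k) : StrictMono (U k) :=
  strictMono_nat_of_lt_succ fun i => (U_step hk i).2

theorem U_mono_aux {k l : ℤ} (hk : 2 ≤ k) (hkl : k ≤ l) (i : ℕ) :
    U k i ≤ U l i ∧ U k (i + 1) - U k i ≤ U l (i + 1) - U l i := by
  induction i with
  | zero => simp [U]
  | succ i ih =>
    obtain ⟨h1, h2⟩ := ih
    have h3 : U k (i + 1) ≤ U l (i + 1) := by omega
    refine ⟨h3, ?_⟩
    rw [U_succ, U_succ]
    have h4 := (U_step hk (i + 1)).1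
    have h5 : (k - 2) * U k (i + 1) ≤ (l - 2) * U l (i + 1) :=
      mul_le_mul (by omega) h3 h4 (by omega)
    nlinarith

theorem U_mono {k l : ℤ} (hk : 2 ≤ k) (hkl : k ≤ l) (i : ℕ) : U k i ≤ U l i :=
  (U_mono_aux hk hkl i).1

theorem U_lt {k l : ℤ} (hk : 2 ≤ k) (hkl : k < l) (i : ℕ) : U k (i + 2) < U l (i + 2) := by
  induction i with
  | zero => simpa [U] using hkl
  | succ i ih =>
    have := (U_mono_aux hk hkl.le (i + 2)).2
    have e : i + 1 + 2 = i + 2 + 1 := rfl
    rw [e]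
    omega

theorem exists_index {k : ℤ} : ∀ (m : ℕ) (a n : ℤ), a ≤ m → 0 ≤ a → a < n →
    a ^ 2 + n ^ 2 - 1 = k * a * n → ∃ i, a = U k i ∧ n = U k (i + 1) := by
  intro m
  induction m with
  | zero =>
    intro a n h1 h2 h3 h4
    have ha : a = 0 := by omega
    subst ha
    refine ⟨0, rfl, ?_⟩
    have : (n - 1) * (n + 1) = 0 := by linarith
    rcases mul_eq_zero.1 this with h | h
    · simp [U]; omega
    · omega
  | succ m ih =>
    intro a n h1 h2 h3 h4
    rcases eq_or_lt_of_le h2 with h0 | h0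
    · exact ih a n (by omega) h2 h3 h4
    · have e : n * (k * a - n) = a ^ 2 - 1 := by linarith
      have hn : 0 < n := by omega
      have p1 : 0 ≤ k * a - n := by
        by_contra hc
        have : n * (k * a - n) < 0 := mul_neg_of_pos_of_neg hn (by omega)
        nlinarith
      have p2 : k * a - n < a := by
        by_contra hc
        have : n * a ≤ n * (k * a - n) := mul_le_mul_of_nonneg_left (by omega) hn.le
        nlinarith
      obtain ⟨i, hi1, hi2⟩ := ih (k * a - n) a (by push_cast at h1; omega) p1 p2 (by nlinarith)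
      refine ⟨i + 1, hi2, ?_⟩
      rw [U_succ, ← hi1, ← hi2]
      ring

/-- Natural-number evaluation of the chain. -/
def V (k : ℕ) : ℕ → ℕ → ℕ → ℕ
  | 0, a, _ => a
  | (i + 1), a, b => V k i b (k * b - a)

theorem V_eq {k : ℕ} (hk : 2 ≤ k) : ∀ (i j a b : ℕ), (a : ℤ) = U k j → (b : ℤ) = U k (j + 1) →
    (V k i a b : ℤ) = U k (j + i) := by
  intro i
  induction i with
  | zero => intro j a b h1 _; simpa [V] using h1
  | succ i ih =>
    intro j a b h1 h2
    have hk' : (2 : ℤ) ≤ k := by exact_mod_cast hk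
    have e : j + (i + 1) = j + 1 + i := by omega
    rw [V, e]
    refine ih (j + 1) b _ h2 ?_
    have h3 := (U_step hk' (j + 2)).1
    rw [U_succ, ← h1, ← h2] at h3 ⊢
    have h4 : a ≤ k * b := by
      have : (a : ℤ) ≤ (k * b : ℕ) := by push_cast; omega
      exact_mod_cast this
    push_cast [Nat.cast_sub h4]
    ring

def W (k i : ℕ) : ℕ := V k i 0 1

theorem W_eq {k : ℕ} (hk : 2 ≤ k) (i : ℕ) : (W k i : ℤ) = U k i := by
  have := V_eq hk i 0 0 1 (by simp [U]) (by simp [U])
  simpa [W] using this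

def search (i N : ℕ) : ℕ → ℕ → ℕ → ℕ
  | 0, lo, _ => lo
  | (f + 1), lo, hi =>
    bif Nat.blt (W ((lo + hi) / 2) i) N then search i N f ((lo + hi) / 2) hi
    else search i N f lo ((lo + hi) / 2)

def bracket (i N c : ℕ) : Bool := Nat.ble 2 c && Nat.blt (W c i) N && Nat.blt N (W (c + 1) i)

def noRoot (i N : ℕ) : Bool := bracket i N (search i N 27 2 67108864)

theorem noRoot_sound {i N : ℕ} (h : noRoot i N = true) {k : ℤ} (hk : 2 ≤ k) : U k i ≠ N := by
  unfold noRoot at h
  generalize search i N 27 2 67108864 = c at h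
  simp only [bracket, Bool.and_eq_true, Nat.ble_eq, Nat.blt_eq] at h
  obtain ⟨⟨h1, h2⟩, h3⟩ := h
  have e1 := W_eq h1 i
  have e2 := W_eq (show 2 ≤ c + 1 by omega) i
  intro he
  rcases le_or_gt k c with hc | hc
  · have := U_mono hk hc i
    omega
  · have := U_mono (k := ((c + 1 : ℕ) : ℤ)) (l := k) (by push_cast; omega) (by push_cast; omega) i
    omega

def chkJ (k j : ℕ) : Bool :=
  Nat.blt (4896 * k ^ 3) (W k j) || (List.range' 3 (j - 3)).all fun i => noRoot i (W k j)

def chkK (k : ℕ) : Bool :=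
  Nat.blt (4896 * k ^ 3) (W k 14) && (List.range' 4 10).all fun j => chkJ k j

theorem chk_all : ((List.range' 3 4900).all chkK) = true := by decide +kernel

theorem finite_check {k1 k2 : ℤ} {i j : ℕ} (h1 : 2 ≤ k1) (h2 : 3 ≤ k2) (h3 : k2 ≤ 4900)
    (hi : 3 ≤ i) (hij : i < j) (hn : U k2 j ≤ 4896 * k2 ^ 3) : U k1 i ≠ U k2 j := by
  obtain ⟨k, rfl⟩ := Int.eq_ofNat_of_zero_le (show 0 ≤ k2 by omega)
  have hk : 3 ≤ k := by exact_mod_cast h2
  have hk' : k ≤ 4900 := by exact_mod_cast h3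
  have hc := List.all_eq_true.1 chk_all k (List.mem_range'_1.2 (by omega))
  simp only [chkK, Bool.and_eq_true, Nat.blt_eq, List.all_eq_true] at hc
  obtain ⟨c1, c2⟩ := hc
  have e14 := W_eq (show 2 ≤ k by omega) 14
  have ej := W_eq (show 2 ≤ k by omega) j
  have c1' : (4896 * (k : ℤ) ^ 3) < (W k 14 : ℤ) := by exact_mod_cast c1
  have hj : j < 14 := by
    by_contra hc
    have := (U_strictMono (k := (k : ℤ)) (by omega)).monotone (show 14 ≤ j by omega)
    omega
  have c3 := c2 j (List.mem_range'_1.2 (by omega))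
  simp only [chkJ, Bool.or_eq_true, Nat.blt_eq, List.all_eq_true] at c3
  rcases c3 with c3 | c3
  · have : (4896 * (k : ℤ) ^ 3) < (W k j : ℤ) := by exact_mod_cast c3
    omega
  · have := noRoot_sound (c3 i (List.mem_range'_1.2 (by omega))) h1
    rw [← ej]
    exact this

end Pool.Agent.MP_83ba34_nt
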