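import Pool.Agent.MP_83ba34_nt.Chain

/-! If `n` lies on two chains then it has at least four prime factors. -/

namespace Pool.Agent.MP_83ba34_nt

theorem sq_le_of_dvd {B y : ℤ} (h : B ^ 2 ∣ y) (hy : 0 < y) : B ^ 2 ≤ y := Int.le_of_dvd hy h

/-- a common divisor of `n` and `a - e` has square at most `k n`. -/
theorem bound_one {k a n B e : ℤ} (he : e = 1 ∨ e = -1) (hk : 3 ≤ k) (ha : 1 < a) (han : a < n - 1)
    (h : a ^ 2 + n ^ 2 - 1 = k * a * n) (h1 : B ∣ n) (h2 : B ∣ a - e) : B ^ 2 ≤ k * n := by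
  obtain ⟨u, hu⟩ := h1
  obtain ⟨v, hv⟩ := h2
  have key : B ^ 2 ∣ k * n - 2 * a + 2 * e := by
    rcases he with rfl | rfl
    · refine ⟨v ^ 2 + u ^ 2 - k * u * v, ?_⟩
      have : k * n - 2 * a + 2 * 1 = (a - 1) ^ 2 + n ^ 2 - k * n * (a - 1) := by linarith
      rw [this, hv, hu]; ring
    · refine ⟨-(v ^ 2 + u ^ 2 - k * u * v), ?_⟩
      have : k * n - 2 * a + 2 * -1 = -((a - -1) ^ 2 + n ^ 2 - k * n * (a - -1)) := by linarith
      rw [this, hv, hu]; ring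
  have hn : 3 * n ≤ k * n := mul_le_mul_of_nonneg_right hk (by omega)
  have := sq_le_of_dvd key (by rcases he with rfl | rfl <;> omega)
  rcases he with rfl | rfl <;> omega

/-- a common divisor of `n` and `a1 - e a2` has square at most `(k1 + k2) n`. -/
theorem bound_two {k1 k2 a1 a2 n B e : ℤ} (he : e = 1 ∨ e = -1) (hk : 3 ≤ k2) (hk' : k2 < k1)
    (ha : 1 < a1) (ha' : a1 < a2) (han : a2 < n - 1)
    (h1 : a1 ^ 2 + n ^ 2 - 1 = k1 * a1 * n) (h2 : a2 ^ 2 + n ^ 2 - 1 = k2 * a2 * n)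
    (hB : B ∣ n) (hd : B ∣ a1 - e * a2) : B ^ 2 ≤ (k1 + k2) * n := by
  have hc : IsCoprime n a2 := ⟨n - k2 * a2, a2, by linarith⟩
  have hc' : IsCoprime (B ^ 2) a2 := (hc.of_isCoprime_of_dvd_left hB).pow_left
  obtain ⟨u, hu⟩ := hB
  obtain ⟨v, hv⟩ := hd
  have key : B ^ 2 ∣ a2 * ((k1 - e * k2) * n - 2 * (a1 - e * a2)) := by
    refine ⟨e * v * (v - k1 * u), ?_⟩
    have : a2 * ((k1 - e * k2) * n - 2 * (a1 - e * a2)) =
        e * (a1 - e * a2) * ((a1 - e * a2) - k1 * n) := by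
      rcases he with rfl | rfl <;> linarith
    rw [this, hv, hu]; ring
  have key2 := hc'.dvd_of_dvd_mul_left key
  have p1 : n ≤ (k1 - k2) * n := by nlinarith
  have p2 : 3 * n ≤ k2 * n := mul_le_mul_of_nonneg_right hk (by omega)
  have p3 : 3 * n ≤ k1 * n := mul_le_mul_of_nonneg_right (by omega) (by omega)
  rcases he with rfl | rfl
  · have := sq_le_of_dvd key2 (by linarith)
    linarith
  · have := sq_le_of_dvd key2 (by linarith)
    linarith

theorem exists_k {a n : ℤ} (ha : 1 < a) (han : a < n - 1) (h1 : n ∣ a ^ 2 - 1)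
    (h2 : a ∣ n ^ 2 - 1) : ∃ k, 3 ≤ k ∧ a ^ 2 + n ^ 2 - 1 = k * a * n := by
  have hc : IsCoprime a n := by
    obtain ⟨c, hc⟩ := h1
    exact ⟨a, -c, by linarith⟩
  have d1 : a ∣ a ^ 2 + n ^ 2 - 1 := by
    have := dvd_add (dvd_pow_self a two_ne_zero) h2
    rwa [← add_sub_assoc] at this
  have d2 : n ∣ a ^ 2 + n ^ 2 - 1 := by
    have := dvd_add (dvd_pow_self n two_ne_zero) h1
    rwa [← add_sub_assoc, add_comm (n ^ 2)] at this
  obtain ⟨k, hk⟩ := hc.mul_dvd d1 d2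
  refine ⟨k, ?_, by linarith⟩
  by_contra hc
  have : a * n * k ≤ a * n * 2 := mul_le_mul_of_nonneg_left (by omega) (by nlinarith)
  nlinarith

theorem case_three {k1 k2 n P Q : ℤ} (hk : 3 ≤ k2) (hk' : k2 < k1) (e2 : n = k1 ^ 2 - 1)
    (hn4 : n ^ 4 ≤ 16 * (P * Q)) (hP : P ≤ (k1 + 1) ^ 2) (hQ0 : 0 ≤ Q)
    (hQ : Q ≤ (k2 * n) * ((k1 + k2) * n)) (h4 : k2 * (k2 ^ 2 - 2) ≤ n) :
    k2 ≤ 4900 ∧ n ≤ 4896 * k2 ^ 3 := by
  have hn : 0 < n := by nlinarith
  have q1 : P * Q ≤ (k1 + 1) ^ 2 * ((k2 * n) * ((k1 + k2) * n)) :=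
    mul_le_mul hP hQ hQ0 (by positivity)
  have q2 : (n ^ 2 * (k1 + 1) ^ 2) * (k1 - 1) ^ 2 ≤
      (n ^ 2 * (k1 + 1) ^ 2) * (16 * (k2 * (k1 + k2))) := by
    have e : n ^ 4 = (n ^ 2 * (k1 + 1) ^ 2) * (k1 - 1) ^ 2 := by rw [e2]; ring
    have e' : (n ^ 2 * (k1 + 1) ^ 2) * (16 * (k2 * (k1 + k2))) =
      16 * ((k1 + 1) ^ 2 * ((k2 * n) * ((k1 + k2) * n))) := by ring
    omega
  have hk1 : 0 < k1 + 1 := by omega
  have q3 : (k1 - 1) ^ 2 ≤ 16 * (k2 * (k1 + k2)) := le_of_mul_le_mul_left q2 (by positivity)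
  clear q1 q2 hn4 hP hQ
  have q4 : k1 ≤ 18 * k2 := by
    by_contra hc
    nlinarith
  have q5 : n ≤ 324 * k2 ^ 2 := by nlinarith
  have q7 : k2 * (k2 ^ 2 - 2) ≤ k2 * (324 * k2) := by linarith
  have q8 : k2 ^ 2 - 2 ≤ 324 * k2 := le_of_mul_le_mul_left q7 (by omega)
  refine ⟨by nlinarith, ?_⟩
  have : k2 ^ 2 * 324 ≤ k2 ^ 2 * (4896 * k2) := mul_le_mul_of_nonneg_left (by omega) (by positivity)
  linarith

theorem case_four {k1 k2 n P Q : ℤ} (hk : 3 ≤ k2) (hk' : k2 < k1) (hn : 0 < n)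
    (hn4 : n ^ 4 ≤ 16 * (P * Q)) (hP : P ≤ k1 * n) (hQ0 : 0 ≤ Q)
    (hQ : Q ≤ (k2 * n) * ((k1 + k2) * n)) (h4 : k1 * (k1 ^ 2 - 2) ≤ n)
    (h5 : k2 ^ 2 * (k2 ^ 2 - 3) ≤ n) : k2 ≤ 4900 ∧ n ≤ 4896 * k2 ^ 3 := by
  have hk1 : 0 < k1 := by omega
  have hk2 : 0 < k2 := by omega
  have q1 : P * Q ≤ (k1 * n) * ((k2 * n) * ((k1 + k2) * n)) :=
    mul_le_mul hP hQ hQ0 (by positivity)
  have q2 : n ^ 3 * n ≤ n ^ 3 * (16 * (k1 * (k2 * (k1 + k2)))) := by linarith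
  have q3 : n ≤ 16 * (k1 * (k2 * (k1 + k2))) := le_of_mul_le_mul_left q2 (by positivity)
  clear q1 q2 hn4 hP hQ
  have q5 : k1 * (k1 ^ 2 - 2) ≤ k1 * (16 * (k2 * (k1 + k2))) := by linarith
  have q6 : k1 ^ 2 - 2 ≤ 16 * (k2 * (k1 + k2)) := le_of_mul_le_mul_left q5 hk1
  have q7 : k1 ≤ 17 * k2 := by
    by_contra hc
    nlinarith
  have q8 : k1 * (k2 * (k1 + k2)) ≤ (17 * k2) * (k2 * (18 * k2)) :=
    mul_le_mul q7 (mul_le_mul_of_nonneg_left (by omega) (by omega)) (by positivity)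
      (by positivity)
  have q9 : n ≤ 4896 * k2 ^ 3 := by linarith
  have q11 : k2 ^ 2 * (k2 ^ 2 - 3) ≤ k2 ^ 2 * (4896 * k2) := by linarith
  have q12 : k2 ^ 2 - 3 ≤ 4896 * k2 := le_of_mul_le_mul_left q11 (by positivity)
  exact ⟨by nlinarith, q9⟩

theorem k_lt {k1 k2 a1 a2 n : ℤ} (ha : 1 < a1) (ha' : a1 < a2) (han : a2 < n - 1)
    (h1 : a1 ^ 2 + n ^ 2 - 1 = k1 * a1 * n) (h2 : a2 ^ 2 + n ^ 2 - 1 = k2 * a2 * n) : k2 < k1 := by
  have p1 : 0 < a1 := by omega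
  have p2 : 0 < a2 := by omega
  have p3 : 0 < n := by omega
  by_contra hc
  have q1 : k1 * (a1 * a2 * n) ≤ k2 * (a1 * a2 * n) :=
    mul_le_mul_of_nonneg_right (by omega) (by positivity)
  have q2 : k1 * (a1 * a2 * n) - k2 * (a1 * a2 * n) = (a2 - a1) * (n ^ 2 - 1 - a1 * a2) := by
    linear_combination (-a2) * h1 + a1 * h2
  have q3 : 0 < (a2 - a1) * (n ^ 2 - 1 - a1 * a2) := mul_pos (by omega) (by nlinarith)
  omega

/-- The arithmetic core: three pairwise products controlling `n` are impossible. -/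
theorem core {k1 k2 a1 a2 n m B1 B2 H : ℤ} (hk : 3 ≤ k2) (hk1 : 3 ≤ k1)
    (ha : 1 < a1) (ha' : a1 < a2) (han : a2 < n - 1)
    (h1 : a1 ^ 2 + n ^ 2 - 1 = k1 * a1 * n) (h2 : a2 ^ 2 + n ^ 2 - 1 = k2 * a2 * n)
    {e1 e2 e3 : ℤ} (he1 : e1 = 1 ∨ e1 = -1) (he2 : e2 = 1 ∨ e2 = -1) (he3 : e3 = 1 ∨ e3 = -1)
    (d1 : B1 ∣ n) (d2 : B2 ∣ n) (d3 : H ∣ n)
    (f1 : B1 ∣ a1 - e1) (f2 : B2 ∣ a2 - e2) (f3 : H ∣ a1 - e3 * a2)
    (hm : m ^ 2 = B1 * B2 * H) (hmn : n ≤ 2 * m) : False := by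
  have hn : 0 < n := by omega
  have hk' : k2 < k1 := k_lt ha ha' han h1 h2
  have b1 := bound_one he1 hk1 ha (by omega) h1 d1 f1
  have b2 := bound_one he2 hk (by omega) han h2 d2 f2
  have b3 := bound_two he3 hk hk' ha ha' han h1 h2 d3 f3
  obtain ⟨i, hi1, hi2⟩ := exists_index a1.toNat a1 n (by omega) (by omega) (by omega) h1
  obtain ⟨j, hj1, hj2⟩ := exists_index a2.toNat a2 n (by omega) (by omega) (by omega) h2
  have hi : 2 ≤ i := by
    by_contra hc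
    have : i = 0 ∨ i = 1 := by omega
    rcases this with rfl | rfl <;> simp [U] at hi1 <;> omega
  have hij : i < j := by
    by_contra hc
    obtain ⟨i', rfl⟩ : ∃ i', i = i' + 1 := ⟨i - 1, by omega⟩
    have q1 := U_lt (show 2 ≤ k2 by omega) hk' i'
    have q2 := (U_strictMono (show 2 ≤ k2 by omega)).monotone (show j + 1 ≤ i' + 2 by omega)
    have e : i' + 1 + 1 = i' + 2 := rfl
    rw [e] at hi2
    omega
  have hn4 : n ^ 4 ≤ 16 * (B1 ^ 2 * (B2 ^ 2 * H ^ 2)) := by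
    have : n ^ 4 ≤ (2 * m) ^ 4 := pow_le_pow_left₀ hn.le hmn 4
    have e : (2 * m) ^ 4 = 16 * (B1 ^ 2 * (B2 ^ 2 * H ^ 2)) := by
      have : (2 * m) ^ 4 = 16 * (m ^ 2) ^ 2 := by ring
      rw [this, hm]; ring
    omega
  have hk0 : 0 < k2 := by omega
  have b23 : B2 ^ 2 * H ^ 2 ≤ (k2 * n) * ((k1 + k2) * n) :=
    mul_le_mul b2 b3 (by positivity) (by positivity)
  have main : k2 ≤ 4900 ∧ n ≤ 4896 * k2 ^ 3 := by
    rcases eq_or_lt_of_le hi with hi3 | hi3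
    · subst hi3
      have g1 : a1 = k1 := by simpa [U] using hi1
      have g2 : n = k1 ^ 2 - 1 := by rw [hi2]; simp [U]; ring
      have b1' : B1 ^ 2 ≤ (k1 + 1) ^ 2 := by
        have hpos : 0 < a1 - e1 := by rcases he1 with rfl | rfl <;> omega
        have q1 := Int.le_of_dvd hpos f1
        have q2 := Int.le_of_dvd hpos (neg_dvd.2 f1)
        have q3 : a1 - e1 ≤ k1 + 1 := by rcases he1 with rfl | rfl <;> omega
        exact sq_le_sq' (by omega) (by omega)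
      have q6 := (U_strictMono (show 2 ≤ k2 by omega)).monotone (show 4 ≤ j + 1 by omega)
      have g3 : U k2 4 = k2 * (k2 ^ 2 - 2) := by simp [U]; ring
      exact case_three hk hk' g2 hn4 b1' (by positivity) b23 (by omega)
    · have q4 := (U_strictMono (show 2 ≤ k1 by omega)).monotone (show 4 ≤ i + 1 by omega)
      have g3 : U k1 4 = k1 * (k1 ^ 2 - 2) := by simp [U]; ring
      have q10 := (U_strictMono (show 2 ≤ k2 by omega)).monotone (show 5 ≤ j + 1 by omega)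
      have g4 : U k2 5 = k2 ^ 2 * (k2 ^ 2 - 3) + 1 := by simp [U]; ring
      exact case_four hk hk' hn hn4 b1 (by positivity) b23 (by omega) (by omega)
  exact finite_check (i := i + 1) (j := j + 1) (show 2 ≤ k1 by omega) hk main.1 (by omega)
    (by omega) (by omega) (by omega)

theorem pow_dvd_sign {p t : ℕ} (hp : p.Prime) {a : ℤ} (h : (p : ℤ) ^ t ∣ a ^ 2 - 1)
    (h2 : p = 2 → 2 * (p : ℤ) ^ t ∣ a ^ 2 - 1) : (p : ℤ) ^ t ∣ a - 1 ∨ (p : ℤ) ^ t ∣ a - -1 := by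
  have hp' : Prime (p : ℤ) := Nat.prime_iff_prime_int.1 hp
  by_cases h3 : p = 2
  · have h4 := h2 h3
    subst h3
    have h5 : (2 : ℤ) ∣ a ^ 2 - 1 := (dvd_mul_right _ _).trans h4
    obtain ⟨c, rfl⟩ : Odd a := by
      rcases Int.even_or_odd a with ⟨c, rfl⟩ | ho
      · exfalso
        obtain ⟨d, hd⟩ := h5
        have : 2 * (2 * c ^ 2 - d) = 1 := by linarith
        omega
      · exact ho
    have h6 : ((2 : ℕ) : ℤ) ^ t ∣ (2 * c) * (c + 1) := by
      have e : (2 * c + 1) ^ 2 - 1 = 2 * ((2 * c) * (c + 1)) := by ring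
      rw [e] at h4
      exact (mul_dvd_mul_iff_left (two_ne_zero)).1 h4
    by_cases h7 : ((2 : ℕ) : ℤ) ∣ c + 1
    · right
      have h8 : ¬ ((2 : ℕ) : ℤ) ∣ c := by push_cast at h7 ⊢; omega
      have e : (2 * c) * (c + 1) = c * (2 * c + 1 - -1) := by ring
      rw [e] at h6
      exact hp'.pow_dvd_of_dvd_mul_left t h8 h6
    · left
      have e : 2 * c + 1 - 1 = 2 * c := by ring
      rw [e]
      exact hp'.pow_dvd_of_dvd_mul_right t h7 h6
  · have e : a ^ 2 - 1 = (a - 1) * (a - -1) := by ring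
    rw [e] at h
    by_cases h7 : (p : ℤ) ∣ a - 1
    · left
      refine hp'.pow_dvd_of_dvd_mul_right t (fun h8 => h3 ?_) h
      have : (p : ℤ) ∣ ((2 : ℕ) : ℤ) := by
        have := dvd_sub h8 h7
        have e : a - -1 - (a - 1) = ((2 : ℕ) : ℤ) := by push_cast; ring
        rwa [e] at this
      exact (Nat.prime_dvd_prime_iff_eq hp Nat.prime_two).1 (Int.natCast_dvd_natCast.1 this)
    · right
      exact hp'.pow_dvd_of_dvd_mul_left t h7 h

def sg (b : Bool) : ℤ := if b then 1 else -1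

theorem no_two {n : ℕ} (h : n.primeFactors.card ≤ 3) {a1 a2 : ℤ} (ha : 1 < a1) (ha' : a1 < a2)
    (han : a2 < n - 1) (h1 : (n : ℤ) ∣ a1 ^ 2 - 1) (h1' : a1 ∣ (n : ℤ) ^ 2 - 1)
    (h2 : (n : ℤ) ∣ a2 ^ 2 - 1) (h2' : a2 ∣ (n : ℤ) ^ 2 - 1) : False := by
  classical
  obtain ⟨k1, hk1, e1⟩ := exists_k ha (by omega) h1 h1'
  obtain ⟨k2, hk2, e2⟩ := exists_k (by omega) han h2 h2'
  obtain ⟨m, hm0, hmn, hm1, hm2⟩ : ∃ m : ℕ, m ≠ 0 ∧ m ∣ n ∧ n ≤ 2 * m ∧ (2 ∣ m → 2 * m ∣ n) := by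
    rcases Nat.even_or_odd n with ⟨c, hc⟩ | ho
    · exact ⟨c, by omega, ⟨2, by omega⟩, by omega, fun _ => ⟨1, by omega⟩⟩
    · refine ⟨n, by omega, dvd_rfl, by omega, fun h => ?_⟩
      exact absurd (even_iff_two_dvd.2 h) (Nat.not_even_iff_odd.2 ho)
  set q : ℕ → ℤ := fun p => (p : ℤ) ^ m.factorization p with hq
  have hqm : ∀ p, q p ∣ (m : ℤ) := fun p => by
    have := Nat.ordProj_dvd m p
    simp only [hq]
    exact_mod_cast this
  have hmn' : (m : ℤ) ∣ n := by exact_mod_cast hmn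
  have hprod : ∏ p ∈ m.primeFactors, q p = m := by
    have := Nat.factorization_prod_pow_eq_self hm0
    rw [Finsupp.prod, Nat.support_factorization] at this
    simp only [hq]
    exact_mod_cast this
  have hsign : ∀ a : ℤ, (n : ℤ) ∣ a ^ 2 - 1 → ∀ p ∈ m.primeFactors,
      q p ∣ a - sg (decide (q p ∣ a - 1)) := by
    intro a hna p hp
    have hpp := Nat.prime_of_mem_primeFactors hp
    have := pow_dvd_sign hpp (t := m.factorization p) (a := a)
      (((hqm p).trans hmn').trans hna) (fun h2 => by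
        have h3 : 2 * m ∣ n := hm2 (h2 ▸ Nat.dvd_of_mem_primeFactors hp)
        have h4 : (2 * m : ℤ) ∣ n := by exact_mod_cast h3
        exact ((mul_dvd_mul_left 2 (hqm p)).trans h4).trans hna)
    by_cases hc : q p ∣ a - 1
    · simpa [sg, hc] using hc
    · simpa [sg, hc] using this.resolve_left hc
  set f : ℕ → Bool × Bool := fun p => (decide (q p ∣ a1 - 1), decide (q p ∣ a2 - 1)) with hf
  have hcard : (m.primeFactors.image f).card < Fintype.card (Bool × Bool) := by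
    have c1 : m.primeFactors.card ≤ n.primeFactors.card :=
      Finset.card_le_card (Nat.primeFactors_mono hmn (by omega))
    have c2 := Finset.card_image_le (s := m.primeFactors) (f := f)
    simp only [Fintype.card_prod, Fintype.card_bool]
    omega
  obtain ⟨⟨x, y⟩, hxy⟩ : ∃ z, z ∉ m.primeFactors.image f := by
    by_contra hc
    push Not at hc
    rw [Finset.eq_univ_iff_forall.2 hc, Finset.card_univ] at hcard
    exact lt_irrefl _ hcard
  have hne : ∀ p ∈ m.primeFactors, ¬ ((f p).1 = x ∧ (f p).2 = y) := by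
    intro p hp hc
    exact hxy (Finset.mem_image.2 ⟨p, hp, Prod.ext hc.1 hc.2⟩)
  have hcop : ∀ (P : ℕ → Prop) [DecidablePred P] (z : ℤ), (∀ p ∈ m.primeFactors, P p → q p ∣ z) →
      ∏ p ∈ m.primeFactors.filter P, q p ∣ z := by
    intro P _ z hz
    refine Finset.prod_dvd_of_coprime ?_ fun p hp =>
      hz p (Finset.mem_filter.1 hp).1 (Finset.mem_filter.1 hp).2
    intro p hp r hr hpr
    have hp' := Nat.prime_of_mem_primeFactors (Finset.mem_filter.1 hp).1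
    have hr' := Nat.prime_of_mem_primeFactors (Finset.mem_filter.1 hr).1
    exact (Nat.isCoprime_iff_coprime.2 ((Nat.coprime_primes hp' hr').2 hpr)).pow
  have hsg : ∀ b, sg b = 1 ∨ sg b = -1 := fun b => by cases b <;> simp [sg]
  refine core (m := m) (B1 := ∏ p ∈ m.primeFactors.filter (fun p => (f p).1 ≠ x), q p)
    (B2 := ∏ p ∈ m.primeFactors.filter (fun p => (f p).2 ≠ y), q p)
    (H := ∏ p ∈ m.primeFactors.filter (fun p => (f p).1 = x ∨ (f p).2 = y), q p)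
    hk2 hk1 ha ha' han e1 e2 (hsg (!x)) (hsg (!y)) (hsg (xor x y))
    (hcop _ _ fun p _ _ => (hqm p).trans hmn') (hcop _ _ fun p _ _ => (hqm p).trans hmn')
    (hcop _ _ fun p _ _ => (hqm p).trans hmn') (hcop _ _ ?_) (hcop _ _ ?_) (hcop _ _ ?_) ?_
    (by exact_mod_cast hm1)
  · intro p hp hx
    have := hsign a1 h1 p hp
    have e : decide (q p ∣ a1 - 1) = !x := by
      change (f p).1 = !x
      revert hx; cases (f p).1 <;> cases x <;> simp
    rwa [e] at this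
  · intro p hp hx
    have := hsign a2 h2 p hp
    have e : decide (q p ∣ a2 - 1) = !y := by
      change (f p).2 = !y
      revert hx; cases (f p).2 <;> cases y <;> simp
    rwa [e] at this
  · intro p hp hx
    have t1 : q p ∣ a1 - sg (f p).1 := hsign a1 h1 p hp
    have t2 : q p ∣ a2 - sg (f p).2 := hsign a2 h2 p hp
    have t3 := hne p hp
    have e : a1 - sg (xor x y) * a2 = (a1 - sg (f p).1) - sg (xor x y) * (a2 - sg (f p).2) := by
      revert hx t3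
      cases (f p).1 <;> cases (f p).2 <;> cases x <;> cases y <;> simp [sg] <;> ring
    rw [e]
    exact dvd_sub t1 (t2.mul_left _)
  · rw [← hprod, Finset.prod_filter, Finset.prod_filter, Finset.prod_filter,
      ← Finset.prod_mul_distrib, ← Finset.prod_mul_distrib, ← Finset.prod_pow]
    refine Finset.prod_congr rfl fun p hp => ?_
    have t3 := hne p hp
    revert t3
    cases (f p).1 <;> cases (f p).2 <;> cases x <;> cases y <;> simp [sq]

end Pool.Agent.MP_83ba34_nt
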